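import Pool.Agent.Helper9KC.Main
import Pool.Agent.H918R5.Bdd

/-!
# The combined theorem
-/

set_option autoImplicit false

open MeasureTheory Topology Filter

namespace Pool.Agent.Helper9KC

open Pool.Agent.H918R5 (ExtT)

/-- the alternatives for the fields which induce the topology -/
def Cl (M : Type) [TopologicalSpace M] : Prop :=
  Countable M ∨
    (FirstCountableTopology M ∧ ∀ f : M → ℕ → ℕ, ∃ g : ℕ → ℕ, ∀ a, ∀ᶠ n in atTop, f a n ≤ g n) ∨
    TopologicalSpace.IsCompletelyMetrizableSpace M ∨
    ∃ (P : Type) (_ : TopologicalSpace P) (_ : PolishSpace P) (g : P → M),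
      Continuous g ∧ ¬ (Set.range g).Countable

theorem bd_inj {F M : Type} (f : F → M) (hf : Function.Injective f)
    (h : ∀ f : M → ℕ → ℕ, ∃ g : ℕ → ℕ, ∀ a, ∀ᶠ n in atTop, f a n ≤ g n) :
    Pool.Agent.H918R5.Bd F := by
  classical
  intro φ
  by_cases hF : Nonempty F
  · obtain ⟨g, hg⟩ := h fun m => φ (Function.invFun f m)
    refine ⟨g, fun a => ?_⟩
    have := hg (f a)
    rwa [Function.leftInverse_invFun hf a] at this
  · exact ⟨0, fun a => absurd ⟨a⟩ hF⟩

theorem main (F : Type) [Field F] [tF : TopologicalSpace F] [IsTopologicalDivisionRing F]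
    [hT2F : T2Space F] (J : Type) (M : J → Type) [∀ j, Field (M j)] [∀ j, TopologicalSpace (M j)]
    [∀ j, IsTopologicalDivisionRing (M j)] [∀ j, T2Space (M j)] (hM : ∀ j, Cl (M j))
    (f : ∀ j, F →+* M j) (hF : tF = ⨅ j, TopologicalSpace.induced (f j) inferInstance) :
    ∃ (K : Type) (_ : Field K) (_ : TopologicalSpace K), IsTopologicalDivisionRing K ∧ T2Space K ∧
      PathConnectedSpace K ∧ ∃ g : F →+* K, Topology.IsEmbedding g := by
  by_cases hne : (𝓝[≠] (0 : F)).NeBot
  swap
  · -- discrete fields
    have hd : DiscreteTopology F :=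
      Pool.Agent.H918R5.discrete_of_zero (Pool.Agent.H918R5.zero_mem_of_not hne)
    obtain ⟨M, iF, iU, i1, i2, i3, i4, i5, hneM, f, U, hU, hUf⟩ := Pool.Agent.H918R5.t_DIS F
    have hucg : (uniformity M).IsCountablyGenerated :=
      IsUniformAddGroup.uniformity_countably_generated
    obtain ⟨κ, hκ, hinj⟩ := cantor_of_cm M hneM
    refine pconn_of_ext F tF hT2F Unit (fun _ => TopologicalSpace.induced f inferInstance)
      (fun _ => (Pool.Agent.H918R5.t_IND F M f).1) (fun _ => ext_of_cantor F M κ hκ hinj f) ?_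
    rw [iInf_const]
    have h1 := Pool.Agent.H918R5.t_IND F M f
    have h2 : @DiscreteTopology F (TopologicalSpace.induced f inferInstance) := by
      refine @Pool.Agent.H918R5.discrete_of_zero F _ (TopologicalSpace.induced f inferInstance)
        h1.1 ?_
      rw [h1.2]
      exact ⟨U, hU, fun a ha => hUf a ha⟩
    rw [@DiscreteTopology.eq_bot F tF hd,
      @DiscreteTopology.eq_bot F (TopologicalSpace.induced f inferInstance) h2]
  by_cases hc : Countable F
  · exact main_countable F hne
  have hle : ∀ j, tF ≤ TopologicalSpace.induced (f j) inferInstance := by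
    intro j
    rw [hF]
    exact iInf_le _ j
  refine pconn_of_ext F tF hT2F J (fun j => TopologicalSpace.induced (f j) inferInstance)
    (fun j => (Pool.Agent.H918R5.t_IND F (M j) (f j)).1) (fun j => ?_) hF
  have hneM : (𝓝[≠] (0 : M j)).NeBot := by
    by_contra hj
    have h1 : {(0 : M j)} ∈ 𝓝 (0 : M j) := Pool.Agent.H918R5.zero_mem_of_not hj
    have h2 : {(0 : F)} ∈ @nhds F (TopologicalSpace.induced (f j) inferInstance) 0 := by
      rw [(Pool.Agent.H918R5.t_IND F (M j) (f j)).2]
      refine ⟨{0}, h1, ?_⟩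
      intro a ha
      have h3 : f j a = 0 := ha
      rw [map_eq_zero] at h3
      exact h3
    have h6 : {(0 : F)} ∈ 𝓝 (0 : F) := nhds_mono (hle j) h2
    have h7 : 𝓝[≠] (0 : F) = ⊥ := by
      rw [← Filter.empty_mem_iff_bot, mem_nhdsWithin_iff_exists_mem_nhds_inter]
      refine ⟨{0}, h6, ?_⟩
      rintro x ⟨hx1, hx2⟩
      exact hx2 hx1
    exact hne.ne h7
  have key : (∃ κ : (ℕ → Bool) → M j, Continuous κ ∧ Function.Injective κ) →
      ExtT F (TopologicalSpace.induced (f j) inferInstance) := by
    rintro ⟨κ, hκ, hinj⟩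
    exact ext_of_cantor F (M j) κ hκ hinj (f j)
  rcases hM j with h | ⟨h, hb⟩ | h | ⟨P, i1, i2, g, hg, hgr⟩
  · exact absurd (f j).injective.countable hc
  · have hNZ := Pool.Agent.H918R5.t_NZ2 (Pool.Agent.H918R5.t_NZ1 Pool.Agent.H918R5.t_SWP
      Pool.Agent.H918R5.t_HIT Pool.Agent.H918R5.t_CNF)
    have hfc : @FirstCountableTopology F (TopologicalSpace.induced (f j) inferInstance) :=
      TopologicalSpace.firstCountableTopology_induced F (M j) (f j)
    have hT2j : @T2Space F (TopologicalSpace.induced (f j) inferInstance) :=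
      @T2Space.of_injective_continuous F (M j) (TopologicalSpace.induced (f j) inferInstance) _ _
        (f j) (f j).injective continuous_induced_dom
    have hnej : (@nhdsWithin F (TopologicalSpace.induced (f j) inferInstance) 0 {(0 : F)}ᶜ).NeBot :=
      Filter.NeBot.mono hne (inf_le_inf_right _ (nhds_mono (hle j)))
    exact @Pool.Agent.H918R5.ext_of_bd hNZ Pool.Agent.H918R5.t_TOA Pool.Agent.H918R5.t_PTA F _
      (TopologicalSpace.induced (f j) inferInstance) (Pool.Agent.H918R5.t_IND F (M j) (f j)).1
      hfc hT2j hnej (bd_inj (f j) (f j).injective hb)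
  · exact key (cantor_of_cm (M j) hneM)
  · exact key (cantor_of_polish hg hgr)

/-- path-connected Hausdorff fields contain uncountable continuous images of Polish spaces -/
theorem unc (K : Type) [Field K] [TopologicalSpace K] [IsTopologicalDivisionRing K] [T2Space K]
    [PathConnectedSpace K] : Cl K := by
  refine Or.inr (Or.inr (Or.inr ?_))
  let γ := PathConnectedSpace.somePath (0 : K) 1
  refine ⟨unitInterval, inferInstance, inferInstance, γ, γ.continuous, fun hc => ?_⟩
  have hcr : CompletelyRegularSpace K :=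
    @UniformSpace.toCompletelyRegularSpace K (IsTopologicalAddGroup.rightUniformSpace K)
  obtain ⟨f, hf, hf0, hf1⟩ := CompletelyRegularSpace.completely_regular (0 : K) {1}
    isClosed_singleton (by simp)
  have h1 : Continuous fun t : unitInterval => (f (γ t) : ℝ) :=
    continuous_subtype_val.comp (hf.comp γ.continuous)
  have h2 := intermediate_value_univ (0 : unitInterval) 1 h1
  have e0 : (f (γ 0) : ℝ) = 0 := by
    rw [γ.source, hf0]
    rfl
  have e1 : (f (γ 1) : ℝ) = 1 := by
    rw [γ.target, hf1 (Set.mem_singleton 1)]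
    rfl
  rw [e0, e1] at h2
  have h3 : (Set.Icc (0 : ℝ) 1).Countable := by
    refine Set.Countable.mono h2 ?_
    have h4 : Set.range (fun t : unitInterval => (f (γ t) : ℝ)) =
        (fun x : K => (f x : ℝ)) '' Set.range γ := by
      rw [← Set.range_comp]
      rfl
    rw [h4]
    exact hc.image _
  exact absurd (Cardinal.Real.Icc_countable_iff.1 h3) (not_le.2 one_pos)

end Pool.Agent.Helper9KC
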