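import Mathlib

/-!
# Uncountable continuous images of Polish spaces in Hausdorff spaces contain Cantor sets
-/

set_option autoImplicit false

open Topology Filter Set PiNat
open scoped ENNReal

namespace Pool.Agent.Helper9KC

section
variable {P X : Type} [MetricSpace P] [SecondCountableTopology P] [TopologicalSpace X] (g : P → X)

/-- a closed set with uncountable image contains points with different images all neighbourhoods of
which in the set have uncountable images -/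
theorem good_point {D : Set P} (hD : ¬ (g '' D).Countable) :
    ¬ (g '' {x ∈ D | ∀ N ∈ 𝓝 x, ¬ (g '' (N ∩ D)).Countable}).Countable := by
  intro hG
  apply hD
  obtain ⟨B, hBc, -, hB⟩ := TopologicalSpace.exists_countable_basis P
  have h1 : g '' D ⊆ g '' {x ∈ D | ∀ N ∈ 𝓝 x, ¬ (g '' (N ∩ D)).Countable} ∪
      ⋃ N ∈ {N ∈ B | (g '' (N ∩ D)).Countable}, g '' (N ∩ D) := by
    rintro _ ⟨x, hx, rfl⟩
    by_cases h : ∀ N ∈ 𝓝 x, ¬ (g '' (N ∩ D)).Countable
    · exact Or.inl ⟨x, ⟨hx, h⟩, rfl⟩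
    · right
      push Not at h
      obtain ⟨N, hN, hNc⟩ := h
      obtain ⟨O, hO, hxO, hON⟩ := hB.mem_nhds_iff.1 hN
      rw [Set.mem_iUnion₂]
      refine ⟨O, ⟨hO, hNc.mono (Set.image_mono (Set.inter_subset_inter_left D hON))⟩, ?_⟩
      exact ⟨x, ⟨hxO, hx⟩, rfl⟩
  refine Set.Countable.mono h1 (hG.union ?_)
  exact Set.Countable.biUnion (hBc.mono fun N hN => hN.1) fun N hN => hN.2

variable [T2Space X] {g}

theorem splitting (hg : Continuous g) {D : Set P} (hDc : IsClosed D) (hD : ¬ (g '' D).Countable)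
    {ε : ℝ≥0∞} (hε : 0 < ε) :
    ∃ D₀ D₁ : Set P, (IsClosed D₀ ∧ ¬ (g '' D₀).Countable ∧ D₀ ⊆ D ∧ Metric.ediam D₀ ≤ ε) ∧
      (IsClosed D₁ ∧ ¬ (g '' D₁).Countable ∧ D₁ ⊆ D ∧ Metric.ediam D₁ ≤ ε) ∧
      Disjoint (g '' D₀) (g '' D₁) := by
  have h1 := good_point g hD
  obtain ⟨y₀, y₁, hne, hy₀, hy₁⟩ : ∃ y₀ y₁, y₀ ≠ y₁ ∧
      y₀ ∈ (g '' {x ∈ D | ∀ N ∈ 𝓝 x, ¬ (g '' (N ∩ D)).Countable}) ∧
      y₁ ∈ (g '' {x ∈ D | ∀ N ∈ 𝓝 x, ¬ (g '' (N ∩ D)).Countable}) := by
    have h2 : (g '' {x ∈ D | ∀ N ∈ 𝓝 x, ¬ (g '' (N ∩ D)).Countable}).Nontrivial := by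
      rw [← Set.not_subsingleton_iff]
      intro h
      exact h1 h.countable
    obtain ⟨a, ha, b, hb, hab⟩ := h2
    exact ⟨a, b, hab, ha, hb⟩
  obtain ⟨x₀, ⟨hx₀, hN₀⟩, rfl⟩ := hy₀
  obtain ⟨x₁, ⟨hx₁, hN₁⟩, rfl⟩ := hy₁
  obtain ⟨V₀, V₁, hV₀, hV₁, hxV₀, hxV₁, hV⟩ := t2_separation hne
  have key : ∀ (x : P) (V : Set X), IsOpen V → g x ∈ V →
      (∀ N ∈ 𝓝 x, ¬ (g '' (N ∩ D)).Countable) →
      ∃ E : Set P, IsClosed E ∧ ¬ (g '' E).Countable ∧ E ⊆ D ∧ Metric.ediam E ≤ ε ∧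
        g '' E ⊆ V := by
    intro x V hV hx hN
    have h2 : g ⁻¹' V ∈ 𝓝 x := (hV.preimage hg).mem_nhds hx
    obtain ⟨δ, hδ, hδV⟩ := EMetric.nhds_basis_closed_eball.mem_iff.1 h2
    have hδ2 : 0 < min δ (ε / 2) := by
      refine lt_min hδ ?_
      rw [ENNReal.div_pos_iff]
      exact ⟨hε.ne', by simp⟩
    refine ⟨Metric.closedEBall x (min δ (ε / 2)) ∩ D, Metric.isClosed_closedEBall.inter hDc,
      hN _ (Metric.closedEBall_mem_nhds x hδ2), Set.inter_subset_right, ?_, ?_⟩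
    · refine (Metric.ediam_mono Set.inter_subset_left).trans (Metric.ediam_closedEBall_le.trans ?_)
      calc 2 * min δ (ε / 2) ≤ 2 * (ε / 2) := by gcongr; exact min_le_right _ _
        _ = ε := ENNReal.mul_div_cancel (by norm_num) (by norm_num)
    · rintro _ ⟨z, ⟨hz, -⟩, rfl⟩
      exact hδV (Metric.closedEBall_subset_closedEBall (min_le_left _ _) hz)
  obtain ⟨E₀, a1, a2, a3, a4, a5⟩ := key x₀ V₀ hV₀ hxV₀ hN₀
  obtain ⟨E₁, b1, b2, b3, b4, b5⟩ := key x₁ V₁ hV₁ hxV₁ hN₁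
  exact ⟨E₀, E₁, ⟨a1, a2, a3, a4⟩, ⟨b1, b2, b3, b4⟩, hV.mono a5 b5⟩

open CantorScheme

theorem cantor_of_complete [CompleteSpace P] (hg : Continuous g) (hD : ¬ (range g).Countable) :
    ∃ κ : (ℕ → Bool) → X, Continuous κ ∧ Function.Injective κ := by
  obtain ⟨u, -, upos', hu⟩ := exists_seq_strictAnti_tendsto' (zero_lt_one' ℝ≥0∞)
  have upos := fun n => (upos' n).1
  let T := Subtype fun E : Set P => IsClosed E ∧ ¬ (g '' E).Countable
  choose C0 C1 h0 h1 hdisj using
    fun {C : Set P} (hC : IsClosed C) (hn : ¬ (g '' C).Countable) {ε : ℝ≥0∞} (hε : 0 < ε) =>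
    splitting hg hC hn hε
  let DP : List Bool → T := fun l => by
    induction l with
    | nil => exact ⟨univ, ⟨isClosed_univ, by rwa [image_univ]⟩⟩
    | cons a l ih =>
      cases a
      · use C0 ih.property.1 ih.property.2 (upos (l.length + 1))
        exact ⟨(h0 _ _ _).1, (h0 _ _ _).2.1⟩
      use C1 ih.property.1 ih.property.2 (upos (l.length + 1))
      exact ⟨(h1 _ _ _).1, (h1 _ _ _).2.1⟩
  let D : List Bool → Set P := fun l => (DP l).val
  have hne : ∀ l, (D l).Nonempty := by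
    intro l
    by_contra h
    rw [Set.not_nonempty_iff_eq_empty] at h
    have h2 := (DP l).property.2
    apply h2
    show (g '' (D l)).Countable
    rw [h, image_empty]
    exact countable_empty
  have hanti : ClosureAntitone D := by
    refine Antitone.closureAntitone ?_ fun l => (DP l).property.1
    intro l a
    cases a
    · exact (h0 _ _ _).2.2.1
    exact (h1 _ _ _).2.2.1
  have hdiam : VanishingDiam D := by
    intro x
    apply tendsto_of_tendsto_of_tendsto_of_le_of_le' tendsto_const_nhds hu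
    · simp
    rw [eventually_atTop]
    refine ⟨1, fun m (hm : 1 ≤ m) => ?_⟩
    rw [Nat.one_le_iff_ne_zero] at hm
    rcases Nat.exists_eq_succ_of_ne_zero hm with ⟨n, rfl⟩
    dsimp
    cases x n
    · convert! (h0 _ _ _).2.2.2
      rw [PiNat.res_length]
    convert! (h1 _ _ _).2.2.2
    rw [PiNat.res_length]
  have hdisj' : ∀ (l : List Bool) (a b : Bool), a ≠ b →
      Disjoint (g '' D (a :: l)) (g '' D (b :: l)) := by
    rintro l (a | a) (b | b) hab <;> try contradiction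
    · exact hdisj _ _ _
    exact (hdisj _ _ _).symm
  have hdom : ∀ {x : ℕ → Bool}, x ∈ (inducedMap D).1 := fun {x} => by
    rw [hanti.map_of_vanishingDiam hdiam hne]
    apply mem_univ
  refine ⟨fun x => g ((inducedMap D).2 ⟨x, hdom⟩), ?_, ?_⟩
  · apply hg.comp
    apply hdiam.map_continuous.comp
    fun_prop
  intro x y hxy
  refine res_injective ?_
  ext n : 1
  induction n with
  | zero => simp
  | succ n ih =>
    simp only [res_succ, List.cons.injEq]
    refine ⟨?_, ih⟩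
    by_contra hab
    have h2 := hdisj' (res x n) (x n) (y n) hab
    rw [Set.disjoint_left] at h2
    refine h2 (a := g ((inducedMap D).2 ⟨x, hdom⟩)) ⟨_, ?_, rfl⟩ ?_
    · rw [← res_succ]
      exact map_mem ⟨x, hdom⟩ (n + 1)
    · have h3 : g ((inducedMap D).2 ⟨x, hdom⟩) = g ((inducedMap D).2 ⟨y, hdom⟩) := hxy
      rw [h3, ih, ← res_succ]
      exact ⟨_, map_mem ⟨y, hdom⟩ (n + 1), rfl⟩

end

/-- **Perfect set theorem** for continuous images of Polish spaces in Hausdorff spaces. -/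
theorem cantor_of_polish {P X : Type} [TopologicalSpace P] [PolishSpace P] [TopologicalSpace X]
    [T2Space X] {g : P → X} (hg : Continuous g) (hD : ¬ (range g).Countable) :
    ∃ κ : (ℕ → Bool) → X, Continuous κ ∧ Function.Injective κ := by
  let := TopologicalSpace.upgradeIsCompletelyMetrizable P
  exact cantor_of_complete hg hD

end Pool.Agent.Helper9KC
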