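import Pool.Agent.Helper9KC.Top
import Pool.Agent.Helper9KC.Suslin

/-!
# Topological fields containing Cantor sets embed in connected topological fields
-/

set_option autoImplicit false

open MeasureTheory Topology Filter

namespace Pool.Agent.Helper9KC

open Pool.Agent.H918R5 (Om nu mu TI KK gg gam ExtT)
open Pool.Agent.H918R5.EVA (nm dn)

/-- evaluations from homomorphisms of a domain -/
theorem eva (R M Ω : Type) [CommRing R] [IsDomain R] [Field M] [TopologicalSpace M]
    [MeasurableSpace Ω] (μ : Measure Ω) (ψ : Ω → R →+* M)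
    (h0 : ∀ p : R, p ≠ 0 → ∀ᵐ ω ∂μ, ψ ω p ≠ 0) :
    ∃ v : Ev (FractionRing R) M Ω μ,
      (∀ z ω, v.e z ω = ψ ω (nm z) * (ψ ω (dn z))⁻¹) ∧
      ∀ p : R, ∀ᵐ ω ∂μ, v.e (algebraMap R (FractionRing R) p) ω = ψ ω p := by
  have hd : ∀ z : FractionRing R, ∀ᵐ ω ∂μ, ψ ω (dn z) ≠ 0 := fun z =>
    h0 _ (Pool.Agent.H918R5.EVA.dn_ne z)
  refine ⟨{ e := fun z ω => ψ ω (nm z) * (ψ ω (dn z))⁻¹
            add := ?_
            mul := ?_
            one := ?_ }, fun z ω => rfl, ?_⟩
  · intro z w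
    filter_upwards [hd z, hd w, hd (z + w)] with ω h1 h2 h3
    have h := congrArg (ψ ω) (Pool.Agent.H918R5.EVA.add_id z w)
    simp only [map_mul, map_add] at h
    field_simp
    linear_combination h
  · intro z w
    filter_upwards [hd z, hd w, hd (z * w)] with ω h1 h2 h3
    have h := congrArg (ψ ω) (Pool.Agent.H918R5.EVA.mul_id z w)
    simp only [map_mul] at h
    field_simp
    linear_combination h
  · filter_upwards [hd 1] with ω h1
    rw [Pool.Agent.H918R5.EVA.one_id, mul_inv_cancel₀ h1]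
  · intro p
    filter_upwards [hd (algebraMap R (FractionRing R) p)] with ω h1
    show ψ ω (nm _) * (ψ ω (dn _))⁻¹ = ψ ω p
    rw [Pool.Agent.H918R5.EVA.map_id', map_mul, mul_assoc, mul_inv_cancel₀ h1, mul_one]

/-- the topology induced from a field containing a Cantor set extends -/
theorem ext_of_cantor (F M : Type) [Field F] [Field M] [TopologicalSpace M]
    [IsTopologicalDivisionRing M] [T2Space M] (κ : (ℕ → Bool) → M) (hκ : Continuous κ)
    (hinj : Function.Injective κ) (f : F →+* M) :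
    ExtT F (TopologicalSpace.induced f inferInstance) := by
  classical
  let R : Type := MvPolynomial TI F
  let ψ : Om → R →+* M := fun ω => MvPolynomial.eval₂Hom f (fun i : TI => κ (bt (i : ℝ) ω))
  have hψ : ∀ ω (p : R), ψ ω p =
      MvPolynomial.eval (fun i : TI => κ (bt (i : ℝ) ω)) (MvPolynomial.map f p) := by
    intro ω p
    rw [MvPolynomial.eval_map]; rfl
  have hmap : ∀ (p : R), p ≠ 0 → MvPolynomial.map f p ≠ 0 := by
    intro p hp h0
    exact hp (MvPolynomial.map_injective f f.injective (by rw [h0, map_zero]))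
  have hnz : ∀ (p : R), p ≠ 0 → ∀ᵐ ω ∂mu, ψ ω p ≠ 0 := by
    intro p hp
    simp only [hψ]
    exact nv2 κ hκ hinj _ (hmap p hp)
  obtain ⟨v, hve, hv⟩ := eva R M Om mu ψ hnz
  have htig : Tg (KK F) M Om mu v := by
    intro z V hV ε hε
    have h1 := tight κ hκ hinj (MvPolynomial.map f (nm z))
      (MvPolynomial.map f (dn z)) (hmap _ (Pool.Agent.H918R5.EVA.dn_ne z)) hV hε
    simpa only [hve, hψ] using h1
  obtain ⟨τ, hτ, hτ0⟩ := t_TOP (KK F) M Om mu v htig
  have hg : ∀ (a : F), ∀ᵐ ω ∂mu, v.e (gg F a) ω = f a := by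
    intro a
    filter_upwards [hv (MvPolynomial.C a)] with ω hω
    show v.e (algebraMap R (KK F) (MvPolynomial.C a)) ω = f a
    rw [hω]
    show MvPolynomial.eval₂Hom f (fun i : TI => κ (bt (i : ℝ) ω)) (MvPolynomial.C a) = f a
    simp
  have hmem : ∀ (a : F) (U : Set M) (ε : ℝ), 0 < ε → f a ∈ U → gg F a ∈ v.W U ε := by
    intro a U ε hε ha
    show mu {ω | v.e (gg F a) ω ∉ U} < ENNReal.ofReal ε
    have : mu {ω | v.e (gg F a) ω ∉ U} = 0 := by
      rw [measure_eq_zero_iff_ae_notMem]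
      filter_upwards [hg a] with ω hω h
      exact h (by rw [hω]; exact ha)
    rw [this]; simpa using hε
  have hmem1 : ∀ (a : F) (U : Set M), gg F a ∈ v.W U 1 → f a ∈ U := by
    intro a U ha
    by_contra hU
    have h1 : mu {ω | v.e (gg F a) ω ∉ U} < ENNReal.ofReal 1 := ha
    have h2 : mu {ω | v.e (gg F a) ω ∉ U} = 1 := by
      rw [← measure_univ (μ := mu)]
      apply measure_congr
      filter_upwards [hg a] with ω hω
      apply propext
      constructor
      · intro _; trivial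
      · intro _
        show v.e (gg F a) ω ∉ U
        rw [hω]; exact hU
    rw [h2] at h1; simp at h1
  refine ⟨τ, hτ, ?_, ?_⟩
  · rw [(Pool.Agent.H918R5.t_IND F M f).2]
    ext S
    constructor
    · rintro ⟨U, hU, hUS⟩
      refine ⟨v.W U 1, (hτ0 _).2 ⟨U, hU, 1, one_pos, subset_rfl⟩, ?_⟩
      intro a ha
      exact hUS (hmem1 a U ha)
    · rintro ⟨T, hT, hTS⟩
      obtain ⟨U, hU, ε, hε, hW⟩ := (hτ0 T).1 hT
      refine ⟨U, hU, ?_⟩
      intro a ha
      exact hTS (hW (hmem a U ε hε ha))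
  · intro t S hS
    obtain ⟨U, hU, ε, hε, hW⟩ := (hτ0 S).1 hS
    have h1 := pth κ hκ hU hε (t : ℝ)
    have h2 := (continuous_subtype_val.tendsto t).eventually h1
    filter_upwards [h2] with s hs
    apply hW
    show mu {ω | v.e (gam F s - gam F t) ω ∉ U} < ENNReal.ofReal ε
    refine lt_of_le_of_lt (le_of_eq ?_) hs
    apply measure_congr
    filter_upwards [hv (MvPolynomial.X s - MvPolynomial.X t)] with ω hω
    have e1 : gam F s - gam F t = algebraMap R (KK F) (MvPolynomial.X s - MvPolynomial.X t) := by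
      rw [map_sub]; rfl
    have e2 : ψ ω (MvPolynomial.X s - MvPolynomial.X t) =
        κ (bt (s : ℝ) ω) - κ (bt (t : ℝ) ω) := by
      show MvPolynomial.eval₂Hom f (fun i : TI => κ (bt (i : ℝ) ω))
        (MvPolynomial.X s - MvPolynomial.X t) = _
      rw [map_sub]; simp
    apply propext
    show v.e (gam F s - gam F t) ω ∉ U ↔ κ (bt (s : ℝ) ω) - κ (bt (t : ℝ) ω) ∉ U
    rw [e1, hω, e2]

/-- path connectedness from one path -/
theorem pcon (K : Type) [Field K] [TopologicalSpace K] [IsTopologicalDivisionRing K]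
    (γ : TI → K) (hγ : Continuous γ) (hst : ∃ s t, γ s ≠ γ t) : PathConnectedSpace K := by
  obtain ⟨s, t, hst⟩ := hst
  have hne : γ s - γ t ≠ 0 := sub_ne_zero.2 hst
  have hTI : PathConnectedSpace TI := by
    apply isPathConnected_iff_pathConnectedSpace.1
    exact (convex_Icc (1 / 4 : ℝ) (1 / 2)).isPathConnected ⟨1 / 4, by norm_num, by norm_num⟩
  have h0 : ∀ z : K, Joined 0 z := by
    intro z
    have h1 : Joined t s := PathConnectedSpace.joined t s
    have hc : Continuous fun u : TI => z * (γ s - γ t)⁻¹ * (γ u - γ t) :=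
      continuous_const.mul (hγ.sub continuous_const)
    have h2 := h1.map hc
    rw [sub_self, mul_zero, mul_assoc, inv_mul_cancel₀ hne, mul_one] at h2
    exact h2
  exact ⟨⟨0⟩, fun x y => (h0 x).symm.trans (h0 y)⟩

/-- suprema of field topologies which extend -/
theorem pconn_of_ext (F : Type) [Field F] (tF : TopologicalSpace F) (hT2F : T2Space F) (J : Type)
    (σ : J → TopologicalSpace F) (hσdiv : ∀ j, @IsTopologicalDivisionRing F _ (σ j))
    (hσ : ∀ j, ExtT F (σ j)) (hF : tF = ⨅ j, σ j) :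
    ∃ (K : Type) (_ : Field K) (_ : TopologicalSpace K), IsTopologicalDivisionRing K ∧ T2Space K ∧
      PathConnectedSpace K ∧ ∃ g : F →+* K, Topology.IsEmbedding g := by
  choose τ hτ hcomap hpath using hσ
  have hdiv : @IsTopologicalDivisionRing (KK F) _ (⨅ j, τ j) :=
    Pool.Agent.H918R5.t_INF (KK F) J τ hτ
  have htop : tF = TopologicalSpace.induced (gg F) (⨅ j, τ j) := by
    have h1 := Pool.Agent.H918R5.t_CMP F (KK F) J (gg F) σ τ hσdiv hτ hcomap
    rw [← h1]; exact hF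
  have hγc : @Continuous TI (KK F) _ (⨅ j, τ j) (gam F) :=
    Pool.Agent.H918R5.t_CTP (KK F) J τ hτ (gam F) (fun j t S hS => hpath j t S hS)
  have hγn : ∃ s t, gam F s ≠ gam F t := by
    refine ⟨⟨1 / 4, by norm_num, by norm_num⟩, ⟨1 / 2, by norm_num, by norm_num⟩, ?_⟩
    intro h
    have h1 := IsFractionRing.injective (MvPolynomial TI F) (KK F) h
    have h2 := MvPolynomial.X_injective h1
    have h3 := congrArg Subtype.val h2
    norm_num at h3
  have ht2 : @T2Space (KK F) (⨅ j, τ j) := by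
    apply @Pool.Agent.H918R5.t_T2 (KK F) _ (⨅ j, τ j) hdiv
    have h1 : {(1 : F)}ᶜ ∈ 𝓝 (0 : F) := isOpen_compl_singleton.mem_nhds (by simp)
    have h1' : @nhds F tF 0 = Filter.comap (gg F) (@nhds (KK F) (⨅ j, τ j) 0) := by
      have h5 := @nhds_induced (KK F) F (⨅ j, τ j) (gg F) 0
      rw [← htop, map_zero] at h5
      exact h5
    rw [h1'] at h1
    obtain ⟨S, hS, hS1⟩ := h1
    refine ⟨S, hS, fun h => ?_⟩
    have h2 : (1 : F) ∈ gg F ⁻¹' S := by
      show gg F 1 ∈ S
      rw [map_one]; exact h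
    exact hS1 h2 rfl
  refine ⟨KK F, inferInstance, ⨅ j, τ j, hdiv, ht2, @pcon (KK F) _ (⨅ j, τ j) hdiv (gam F) hγc hγn,
    gg F, ?_⟩
  let _ : TopologicalSpace (KK F) := ⨅ j, τ j
  exact ⟨⟨htop⟩, (gg F).injective⟩

/-- nondiscrete countable fields -/
theorem main_countable (F : Type) [Field F] [Countable F] [tF : TopologicalSpace F]
    [IsTopologicalDivisionRing F] [hT2F : T2Space F] (hne : (𝓝[≠] (0 : F)).NeBot) :
    ∃ (K : Type) (_ : Field K) (_ : TopologicalSpace K), IsTopologicalDivisionRing K ∧ T2Space K ∧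
      PathConnectedSpace K ∧ ∃ g : F →+* K, Topology.IsEmbedding g := by
  classical
  let J : Type := {U : Set F // U ∈ 𝓝 (0 : F) ∧ (1 : F) ∉ U}
  choose σ hσdiv hσfc hσle hσU using
    fun j : J => Pool.Agent.H918R5.t_MET F tF inferInstance j.1 j.2.1
  have hσT2 : ∀ j, @T2Space F (σ j) := fun j =>
    @Pool.Agent.H918R5.t_T2 F _ (σ j) (hσdiv j) ⟨j.1, hσU j, j.2.2⟩
  have hσne : ∀ j, (@nhdsWithin F (σ j) 0 {(0 : F)}ᶜ).NeBot := by
    intro j
    exact Filter.NeBot.mono hne (inf_le_inf_right _ (nhds_mono (hσle j)))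
  have hNZ := Pool.Agent.H918R5.t_NZ2 (Pool.Agent.H918R5.t_NZ1 Pool.Agent.H918R5.t_SWP
    Pool.Agent.H918R5.t_HIT Pool.Agent.H918R5.t_CNF)
  have hext : ∀ j, ExtT F (σ j) := fun j =>
    @Pool.Agent.H918R5.ext_of_countable (Pool.Agent.H918R5.t_EAA Pool.Agent.H918R5.t_SEQA hNZ)
      Pool.Agent.H918R5.t_TOA Pool.Agent.H918R5.t_PTA F _ _ (σ j) (hσdiv j) (hσfc j) (hσT2 j)
      (hσne j)
  have htF : tF = ⨅ j, σ j := by
    have hd : @IsTopologicalDivisionRing F _ (⨅ j, σ j) := Pool.Agent.H918R5.t_INF F J σ hσdiv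
    have hg1 : @IsTopologicalAddGroup F tF _ := inferInstance
    have hg2 : @IsTopologicalAddGroup F (⨅ j, σ j) _ :=
      @IsTopologicalRing.to_topologicalAddGroup F _ (⨅ j, σ j)
        (@IsTopologicalDivisionRing.toIsTopologicalRing F _ (⨅ j, σ j) hd)
    refine IsTopologicalAddGroup.ext hg1 hg2 ?_
    apply le_antisymm
    · exact nhds_mono (le_iInf hσle)
    · intro S hS
      have hU : S ∩ {(1 : F)}ᶜ ∈ @nhds F tF 0 :=
        Filter.inter_mem hS (isOpen_compl_singleton.mem_nhds (by simp))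
      have h1 : S ∩ {(1 : F)}ᶜ ∈ @nhds F (σ ⟨S ∩ {(1 : F)}ᶜ, hU, by simp⟩) 0 :=
        hσU ⟨S ∩ {(1 : F)}ᶜ, hU, by simp⟩
      have h2 := nhds_mono (iInf_le σ ⟨S ∩ {(1 : F)}ᶜ, hU, by simp⟩) h1
      exact Filter.mem_of_superset h2 Set.inter_subset_left
  exact pconn_of_ext F tF hT2F J σ hσdiv hext htF

/-- completely metrizable nondiscrete fields contain Cantor sets -/
theorem cantor_of_cm (M : Type) [Field M] [TopologicalSpace M] [IsTopologicalDivisionRing M]
    [TopologicalSpace.IsCompletelyMetrizableSpace M] (hne : (𝓝[≠] (0 : M)).NeBot) :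
    ∃ κ : (ℕ → Bool) → M, Continuous κ ∧ Function.Injective κ := by
  let := TopologicalSpace.upgradeIsCompletelyMetrizable M
  have hP : Perfect (Set.univ : Set M) := by
    refine ⟨isClosed_univ, fun x _ => ?_⟩
    rw [accPt_iff_nhds]
    intro U hU
    have h1 : (fun y => y + x) ⁻¹' U ∈ 𝓝 (0 : M) := by
      have hc : Tendsto (fun y : M => y + x) (𝓝 0) (𝓝 (0 + x)) :=
        (continuous_id.add continuous_const).tendsto 0
      rw [zero_add] at hc
      exact hc hU
    have h2 : (fun y => y + x) ⁻¹' U ∩ {0}ᶜ ∈ 𝓝[≠] (0 : M) := inter_mem_nhdsWithin' h1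
    obtain ⟨y, hy1, hy2⟩ := hne.nonempty_of_mem h2
    refine ⟨y + x, ⟨hy1, trivial⟩, ?_⟩
    intro h
    apply hy2
    rw [Set.mem_singleton_iff]
    exact add_eq_right.1 h
  obtain ⟨κ, -, h1, h2⟩ := hP.exists_nat_bool_injection ⟨0, trivial⟩
  exact ⟨κ, h1, h2⟩
  where
    inter_mem_nhdsWithin' {U : Set M} (h : U ∈ 𝓝 (0 : M)) : U ∩ {0}ᶜ ∈ 𝓝[≠] (0 : M) :=
      inter_mem (mem_nhdsWithin_of_mem_nhds h) self_mem_nhdsWithin

end Pool.Agent.Helper9KC
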