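import Pool.Agent.H918R5.Fin

/-!
# Random paths on a Cantor set in a topological field

`κ` is a continuous injection of the Cantor space in a Hausdorff topological field `M`; at the time
`t` the random element is `κ` of the sequence of bits `ω i < t`.
-/

set_option autoImplicit false

open MeasureTheory Topology Filter

namespace Pool.Agent.Helper9KC

open Pool.Agent.H918R5 (Om nu mu TI sw ph Hi)

open Classical in
/-- the bits at time `t` -/
noncomputable def bt (t : ℝ) (ω : Om) : ℕ → Bool := fun i => decide (ω i < t)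

theorem bt_eq_true (t : ℝ) (ω : Om) (i : ℕ) : bt t ω i = true ↔ ω i < t := by
  simp [bt]

theorem measurable_bt (t : ℝ) : Measurable (bt t) := by
  rw [measurable_pi_iff]
  intro i
  apply measurable_to_bool
  have : (fun ω : Om => bt t ω i) ⁻¹' {true} = {ω : Om | ω i < t} := by
    ext ω
    simp [bt_eq_true]
  rw [this]
  exact measurableSet_lt (measurable_pi_apply i) measurable_const

theorem unif {M : Type} [AddCommGroup M] [TopologicalSpace M] [IsTopologicalAddGroup M]
    (κ : (ℕ → Bool) → M) (hκ : Continuous κ) {U : Set M} (hU : U ∈ 𝓝 (0 : M)) :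
    ∃ N : ℕ, ∀ b b' : ℕ → Bool, (∀ i < N, b i = b' i) → κ b - κ b' ∈ U := by
  have hm : (fun p : M × M => p.1 - p.2) ⁻¹' U ∈ 𝓝 ((0 : M), (0 : M)) := by
    apply continuous_sub.continuousAt.preimage_mem_nhds
    simpa using hU
  rw [nhds_prod_eq, mem_prod_self_iff] at hm
  obtain ⟨V, hV, hVU⟩ := hm
  have h1 : ∀ b : ℕ → Bool, ∃ n : ℕ, PiNat.cylinder b n ⊆ {b' | κ b' - κ b ∈ V} := by
    intro b
    have h2 : {b' | κ b' - κ b ∈ V} ∈ 𝓝 b := by
      have h3 : Tendsto (fun b' => κ b' - κ b) (𝓝 b) (𝓝 (κ b - κ b)) :=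
        (hκ.sub continuous_const).tendsto b
      rw [sub_self] at h3
      exact h3 hV
    rw [(PiNat.isTopologicalBasis_cylinders (fun _ : ℕ => Bool)).mem_nhds_iff] at h2
    obtain ⟨t, ⟨x, n, rfl⟩, hb, ht⟩ := h2
    exact ⟨n, by rw [PiNat.mem_cylinder_iff_eq.1 hb]; exact ht⟩
  choose n hn using h1
  obtain ⟨s, -, hs⟩ := isCompact_univ.elim_nhds_subcover (fun b : ℕ → Bool => PiNat.cylinder b (n b))
    (fun b _ => (PiNat.isOpen_cylinder _ b (n b)).mem_nhds (PiNat.self_mem_cylinder b _))
  refine ⟨s.sup n, fun b b' hbb => ?_⟩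
  have h2 := hs (Set.mem_univ b)
  rw [Set.mem_iUnion₂] at h2
  obtain ⟨c, hc, hbc⟩ := h2
  have h3 : b' ∈ PiNat.cylinder c (n c) := by
    rw [PiNat.mem_cylinder_iff] at hbc ⊢
    intro i hi
    rw [← hbb i (hi.trans_le (Finset.le_sup hc))]
    exact hbc i hi
  have h4 := hVU (Set.mk_mem_prod (hn c hbc) (hn c h3))
  have h5 : (κ b - κ c) - (κ b' - κ c) = κ b - κ b' := by abel
  rw [← h5]
  exact h4

theorem pth {M : Type} [AddCommGroup M] [TopologicalSpace M] [IsTopologicalAddGroup M]
    (κ : (ℕ → Bool) → M) (hκ : Continuous κ) {U : Set M} (hU : U ∈ 𝓝 (0 : M)) {ε : ℝ}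
    (hε : 0 < ε) (t : ℝ) :
    ∀ᶠ s in 𝓝 t, mu {ω | κ (bt s ω) - κ (bt t ω) ∉ U} < ENNReal.ofReal ε := by
  obtain ⟨N, hN⟩ := unif κ hκ hU
  have hmain : ∀ s, mu {ω | κ (bt s ω) - κ (bt t ω) ∉ U} ≤ N * ENNReal.ofReal |s - t| := by
    intro s
    have hsub : {ω : Om | κ (bt s ω) - κ (bt t ω) ∉ U} ⊆
        ⋃ i ∈ Finset.range N, (fun ω : Om => ω i) ⁻¹' Set.Ico (min s t) (max s t) := by
      intro ω hω
      by_contra hcon
      apply hω
      refine hN _ _ ?_
      intro i hi
      have h2 : ¬ (min s t ≤ ω i ∧ ω i < max s t) := by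
        intro h3
        apply hcon
        simp only [Set.mem_iUnion]
        exact ⟨i, Finset.mem_range.2 hi, h3⟩
      rw [Bool.eq_iff_iff, bt_eq_true, bt_eq_true]
      constructor
      · intro h3
        by_contra h4
        exact h2 ⟨(min_le_right _ _).trans (not_lt.1 h4), h3.trans_le (le_max_left _ _)⟩
      · intro h3
        by_contra h4
        exact h2 ⟨(min_le_left _ _).trans (not_lt.1 h4), h3.trans_le (le_max_right _ _)⟩
    calc mu {ω | κ (bt s ω) - κ (bt t ω) ∉ U}
        ≤ mu (⋃ i ∈ Finset.range N, (fun ω : Om => ω i) ⁻¹' Set.Ico (min s t) (max s t)) :=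
          measure_mono hsub
      _ ≤ ∑ i ∈ Finset.range N, mu ((fun ω : Om => ω i) ⁻¹' Set.Ico (min s t) (max s t)) :=
          measure_biUnion_finset_le _ _
      _ ≤ ∑ _i ∈ Finset.range N, ENNReal.ofReal |s - t| := by
          refine Finset.sum_le_sum fun i _ => ?_
          refine (Pool.Agent.H918R5.PTHaux.mu_le i _ _).trans_eq ?_
          rw [max_sub_min_eq_abs']
      _ = N * ENNReal.ofReal |s - t| := by
          rw [Finset.sum_const, Finset.card_range, nsmul_eq_mul]
  have hη : 0 < ε / (N + 1) := by positivity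
  filter_upwards [Metric.ball_mem_nhds t hη] with s hs
  rw [Metric.mem_ball, Real.dist_eq] at hs
  refine (hmain s).trans_lt ?_
  rw [← ENNReal.ofReal_natCast, ← ENNReal.ofReal_mul (Nat.cast_nonneg N)]
  rw [ENNReal.ofReal_lt_ofReal_iff hε]
  have h5 : (0 : ℝ) ≤ N := Nat.cast_nonneg N
  have h6 : |s - t| * (N + 1) < ε := by
    rwa [lt_div_iff₀ (by positivity)] at hs
  nlinarith [abs_nonneg (s - t)]

theorem bt_ph {a δ : ℝ} (hδ : 0 < δ) (i : ℕ) (ω : Om) {t : ℝ} (ht : t ≤ a - δ) :
    bt t (ph a δ i ω) = bt t ω := by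
  funext j
  rw [Bool.eq_iff_iff, bt_eq_true, bt_eq_true]
  unfold ph
  by_cases hj : j = i
  · subst hj
    rw [Function.update_self]
    exact Pool.Agent.H918R5.SWE_.sw_lt hδ ht
  · rw [Function.update_of_ne hj]

theorem bt_flip {a δ : ℝ} (i : ℕ) (ω : Om) (hi : ω ∈ Hi a δ i) :
    bt a (ph a δ i ω) = Function.update (bt a ω) i (!(bt a ω i)) := by
  funext j
  by_cases hj : j = i
  · subst hj
    rw [Function.update_self]
    have hii : ph a δ j ω j = sw a δ (ω j) := by
      unfold ph
      rw [Function.update_self]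
    obtain ⟨h1, h2⟩ := hi
    rcases lt_or_ge (ω j) a with h3 | h3
    · have h4 : bt a ω j = true := (bt_eq_true _ _ _).2 h3
      rw [h4]
      have h5 : ¬ bt a (ph a δ j ω) j = true := by
        rw [bt_eq_true, hii]
        exact Pool.Agent.H918R5.SWE_.sw_low h1 h3
      simpa using h5
    · have h4 : ¬ bt a ω j = true := by
        rw [bt_eq_true]
        exact not_lt.2 h3
      have h5 : bt a (ph a δ j ω) j = true := by
        rw [bt_eq_true, hii]
        exact Pool.Agent.H918R5.SWE_.sw_high h3 h2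
      rw [h5]
      simp at h4
      rw [h4]
      rfl
  · rw [Function.update_of_ne hj]
    rw [Bool.eq_iff_iff, bt_eq_true, bt_eq_true]
    unfold ph
    rw [Function.update_of_ne hj]

theorem flip_inj (b : ℕ → Bool) {i j : ℕ} (hij : i ≠ j) :
    Function.update b i (!(b i)) ≠ Function.update b j (!(b j)) := by
  intro h
  have h1 := congrFun h i
  rw [Function.update_self, Function.update_of_ne hij] at h1
  exact absurd h1 (by simp)

section
variable {M : Type} [Field M] [TopologicalSpace M] [IsTopologicalDivisionRing M] [T2Space M]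
  (κ : (ℕ → Bool) → M) (hκ : Continuous κ)

include hκ in
omit [T2Space M] in
theorem cont_eval {n : ℕ} (p : MvPolynomial (Fin n) M) :
    Continuous fun x : Fin n → ℕ → Bool => MvPolynomial.eval (fun i => κ (x i)) p :=
  (MvPolynomial.continuous_eval p).comp
    (continuous_pi fun i => hκ.comp (continuous_apply i))

theorem measurable_bts {n : ℕ} (t : Fin n → ℝ) :
    Measurable fun ω : Om => fun i : Fin n => bt (t i) ω :=
  measurable_pi_iff.2 fun i => measurable_bt (t i)

include hκ in
theorem meas0 {n : ℕ} (t : Fin n → ℝ) (p : MvPolynomial (Fin n) M) :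
    MeasurableSet {ω : Om | MvPolynomial.eval (fun i => κ (bt (t i) ω)) p = 0} := by
  have h1 : IsClosed {x : Fin n → ℕ → Bool | MvPolynomial.eval (fun i => κ (x i)) p = 0} :=
    isClosed_singleton.preimage (cont_eval κ hκ p)
  exact measurable_bts t h1.measurableSet

include hκ in
theorem nv1 (hinj : Function.Injective κ) (n : ℕ) : ∀ (t : Fin n → TI), StrictAnti t →
    ∀ p : MvPolynomial (Fin n) M, p ≠ 0 →
      ∀ᵐ ω ∂mu, MvPolynomial.eval (fun i => κ (bt (t i : ℝ) ω)) p ≠ 0 := by
  induction n with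
  | zero =>
    intro t _ p hp
    refine Filter.Eventually.of_forall fun ω => ?_
    have h1 := MvPolynomial.eq_C_of_isEmpty p
    intro h2
    apply hp
    rw [h1] at h2
    rw [MvPolynomial.eval_C] at h2
    rw [h1, h2, MvPolynomial.C_0]
  | succ n ih =>
    intro t ht p hp
    set P := MvPolynomial.finSuccEquiv M n p with hPdef
    have hP0 : P ≠ 0 := by
      intro h
      apply hp
      exact (MvPolynomial.finSuccEquiv M n).injective (by rw [map_zero]; exact h)
    set q := P.leadingCoeff with hq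
    have hq0 : q ≠ 0 := Polynomial.leadingCoeff_ne_zero.2 hP0
    have htail : StrictAnti (fun i : Fin n => t i.succ) := fun i j hij =>
      ht (Fin.succ_lt_succ_iff.2 hij)
    have hIH := ih (fun i => t i.succ) htail q hq0
    obtain ⟨δ, hδ0, hδ8, hδ⟩ := Pool.Agent.H918R5.NV1.exists_gap t ht
    set a : ℝ := (t 0 : ℝ) with ha
    have ha1 : (1 / 4 : ℝ) ≤ a := (t 0).2.1
    have ha2 : a ≤ (1 / 2 : ℝ) := (t 0).2.2
    set tl : Om → Fin n → M := fun ω i => κ (bt (t i.succ : ℝ) ω) with htl
    have hall : ∀ ω : Om, (fun i : Fin (n + 1) => κ (bt (t i : ℝ) ω))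
        = Fin.cons (κ (bt a ω)) (tl ω) := by
      intro ω
      funext i
      refine Fin.cases ?_ (fun j => ?_) i
      · rw [Fin.cons_zero]
      · rw [Fin.cons_succ]
    have hmE : MeasurableSet {ω : Om | MvPolynomial.eval (tl ω) q ≠ 0 ∧
        MvPolynomial.eval (fun i : Fin (n + 1) => κ (bt (t i : ℝ) ω)) p = 0} := by
      have e1 : MeasurableSet {ω : Om | MvPolynomial.eval (tl ω) q = 0} :=
        meas0 κ hκ (fun i => (t i.succ : ℝ)) q
      have e2 : MeasurableSet {ω : Om |
          MvPolynomial.eval (fun i : Fin (n + 1) => κ (bt (t i : ℝ) ω)) p = 0} :=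
        meas0 κ hκ (fun i => (t i : ℝ)) p
      exact e1.compl.inter e2
    have hpres := Pool.Agent.H918R5.t_SWP a δ hδ0 (by linarith) (by linarith)
    have hinf := Pool.Agent.H918R5.t_HIT a δ hδ0 (by linarith) (by linarith)
    have hzero := Pool.Agent.H918R5.t_CNT Om mu (fun i => ph a δ i) (fun i => Hi a δ i) _
      P.natDegree hmE
      (fun i => (hpres i).1) (fun i => (hpres i).2.1) (fun i ω => (hpres i).2.2 ω) hinf (by
      intro ω s hs
      rcases s.eq_empty_or_nonempty with rfl | ⟨i0, hi0⟩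
      · simp
      classical
      have htlω : ∀ i, tl (ph a δ i ω) = tl ω := by
        intro i
        funext j
        show κ (bt _ _) = κ (bt _ _)
        rw [bt_ph hδ0 i ω (hδ j)]
      set Q : Polynomial M := P.map (MvPolynomial.eval (tl ω)) with hQ
      have hqω : MvPolynomial.eval (tl ω) q ≠ 0 := by
        have := (hs i0 hi0).2.1
        rw [htlω i0] at this
        exact this
      have hQ0 : Q ≠ 0 := by
        intro h
        have h1 : Q.coeff P.natDegree = MvPolynomial.eval (tl ω) q := by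
          rw [hQ, Polynomial.coeff_map, hq]
          rfl
        rw [h, Polynomial.coeff_zero] at h1
        exact hqω h1.symm
      have hroot : ∀ i ∈ s, κ (bt a (ph a δ i ω)) ∈ Q.roots.toFinset := by
        intro i hi
        rw [Multiset.mem_toFinset, Polynomial.mem_roots hQ0]
        have h1 := (hs i hi).2.2
        rw [hall, MvPolynomial.eval_eq_eval_mv_eval', htlω i] at h1
        exact h1
      have hinj' : Set.InjOn (fun i => κ (bt a (ph a δ i ω))) (s : Set ℕ) := by
        intro i hi j hj hij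
        by_contra hne
        have hij' : κ (bt a (ph a δ i ω)) = κ (bt a (ph a δ j ω)) := hij
        have h2 := hinj hij'
        rw [bt_flip i ω (hs i hi).1, bt_flip j ω (hs j hj).1] at h2
        exact flip_inj _ hne h2
      calc s.card = (s.image (fun i => κ (bt a (ph a δ i ω)))).card :=
            (Finset.card_image_of_injOn hinj').symm
        _ ≤ Q.roots.toFinset.card := by
            apply Finset.card_le_card
            intro x hx
            obtain ⟨i, hi, rfl⟩ := Finset.mem_image.1 hx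
            exact hroot i hi
        _ ≤ Multiset.card Q.roots := Multiset.toFinset_card_le _
        _ ≤ Q.natDegree := Polynomial.card_roots' Q
        _ ≤ P.natDegree := Polynomial.natDegree_map_le)
    have hae : ∀ᵐ ω ∂mu, ¬ (MvPolynomial.eval (tl ω) q ≠ 0 ∧
        MvPolynomial.eval (fun i : Fin (n + 1) => κ (bt (t i : ℝ) ω)) p = 0) := by
      rw [ae_iff]
      simpa using hzero
    filter_upwards [hae, hIH] with ω h1 h2 h3
    exact h1 ⟨h2, h3⟩

/-- every polynomial is a polynomial in finitely many variables at decreasing times -/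
theorem exists_fin (s : Finset TI) :
    ∃ (n : ℕ) (t : Fin n → TI), StrictAnti t ∧ (s : Set TI) ⊆ Set.range t := by
  set e : Fin s.card ↪o TI := s.orderEmbOfFin rfl with he
  refine ⟨s.card, fun i => e (Fin.rev i), ?_, ?_⟩
  · intro i j hij
    exact e.strictMono (Fin.rev_lt_rev.2 hij)
  · intro x hx
    have h1 : x ∈ Set.range e := by
      rw [he, Finset.range_orderEmbOfFin]
      exact hx
    obtain ⟨i, hi⟩ := h1
    exact ⟨Fin.rev i, by simp only [Fin.rev_rev]; exact hi⟩

include hκ in
theorem nv2 (hinj : Function.Injective κ) (p : MvPolynomial TI M) (hp : p ≠ 0) :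
    ∀ᵐ ω ∂mu, MvPolynomial.eval (fun i : TI => κ (bt (i : ℝ) ω)) p ≠ 0 := by
  obtain ⟨n, t, hanti, hrange⟩ := exists_fin p.vars
  obtain ⟨q, hq⟩ := MvPolynomial.exists_rename_eq_of_vars_subset_range p t hanti.injective hrange
  have hq0 : q ≠ 0 := by
    intro h0
    apply hp
    rw [← hq, h0, map_zero]
  have h2 := nv1 κ hκ hinj _ t hanti q hq0
  filter_upwards [h2] with ω hω
  rw [← hq, MvPolynomial.eval_rename]
  exact hω

include hκ in
/-- tightness -/
theorem tight (hinj : Function.Injective κ) (p q : MvPolynomial TI M) (hq : q ≠ 0) {V : Set M}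
    (hV : V ∈ 𝓝 (0 : M)) {ε : ℝ} (hε : 0 < ε) : ∃ U ∈ 𝓝 (0 : M),
      mu {ω | ¬ ∀ x ∈ U, (MvPolynomial.eval (fun i : TI => κ (bt (i : ℝ) ω)) p *
        (MvPolynomial.eval (fun i : TI => κ (bt (i : ℝ) ω)) q)⁻¹) * x ∈ V} < ENNReal.ofReal ε := by
  obtain ⟨n, t, hanti, hrange⟩ := exists_fin (p.vars ∪ q.vars)
  rw [Finset.coe_union, Set.union_subset_iff] at hrange
  obtain ⟨p', hp'⟩ := MvPolynomial.exists_rename_eq_of_vars_subset_range p t hanti.injective hrange.1
  obtain ⟨q', hq'⟩ := MvPolynomial.exists_rename_eq_of_vars_subset_range q t hanti.injective hrange.2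
  have hq0 : q' ≠ 0 := by
    intro h0
    apply hq
    rw [← hq', h0, map_zero]
  set β : Om → Fin n → ℕ → Bool := fun ω i => bt (t i : ℝ) ω with hβ
  have hβm : Measurable β := measurable_bts fun i => (t i : ℝ)
  set P : (Fin n → ℕ → Bool) → M := fun x => MvPolynomial.eval (fun i => κ (x i)) p' with hP
  set Q : (Fin n → ℕ → Bool) → M := fun x => MvPolynomial.eval (fun i => κ (x i)) q' with hQ
  have hPc : Continuous P := cont_eval κ hκ p'
  have hQc : Continuous Q := cont_eval κ hκ q'
  have hae : ∀ᵐ ω ∂mu, Q (β ω) ≠ 0 := nv1 κ hκ hinj _ t hanti q' hq0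
  let ν : Measure (Fin n → ℕ → Bool) := mu.map β
  have hν : IsProbabilityMeasure ν := Measure.isProbabilityMeasure_map hβm.aemeasurable
  have hO : IsOpen {x : Fin n → ℕ → Bool | Q x ≠ 0} := isOpen_ne.preimage hQc
  obtain ⟨C, hCO, hCc, hCε⟩ := hO.measurableSet.exists_isCompact_sdiff_lt (measure_ne_top ν _)
    (ENNReal.ofReal_pos.2 hε).ne'
  have hT : IsCompact ((fun x => P x * (Q x)⁻¹) '' C) := by
    apply hCc.image_of_continuousOn
    exact hPc.continuousOn.mul (hQc.continuousOn.inv₀ fun x hx => hCO hx)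
  have hb : ∀ᶠ x in 𝓝 (0 : M), ∀ a ∈ (fun x => P x * (Q x)⁻¹) '' C, a * x ∈ V := by
    apply hT.eventually_forall_of_forall_eventually
    intro a _
    have hc : Tendsto (fun z : M × M => z.2 * z.1) (𝓝 ((0 : M), a)) (𝓝 (a * 0)) :=
      (continuous_snd.mul continuous_fst).tendsto _
    rw [mul_zero] at hc
    exact hc hV
  refine ⟨_, hb, ?_⟩
  refine lt_of_le_of_lt ?_ hCε
  have h1 : ν ({x | Q x ≠ 0} \ C) = mu (β ⁻¹' ({x | Q x ≠ 0} \ C)) :=
    Measure.map_apply hβm (hO.measurableSet.diff hCc.measurableSet)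
  rw [h1]
  refine measure_mono_ae ?_
  filter_upwards [hae] with ω hω h2
  refine ⟨hω, fun h3 => h2 ?_⟩
  intro x hx
  have h4 := hx _ ⟨β ω, h3, rfl⟩
  have e1 : MvPolynomial.eval (fun i : TI => κ (bt (i : ℝ) ω)) p = P (β ω) := by
    rw [← hp', MvPolynomial.eval_rename]
    rfl
  have e2 : MvPolynomial.eval (fun i : TI => κ (bt (i : ℝ) ω)) q = Q (β ω) := by
    rw [← hq', MvPolynomial.eval_rename]
    rfl
  rw [e1, e2]
  exact h4

end

end Pool.Agent.Helper9KC
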