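import Pool.Agent.Helper9KC.Path

/-!
# The topology of convergence in measure is a field topology (tight evaluations)
-/

set_option autoImplicit false

open MeasureTheory Topology Filter

namespace Pool.Agent.Helper9KC

/-- almost everywhere evaluations of the field `K` in `M` -/
structure Ev (K M Ω : Type) [Field K] [Field M] [TopologicalSpace M] [MeasurableSpace Ω]
    (μ : Measure Ω) where
  /-- the evaluation -/
  e : K → Ω → M
  add : ∀ z w, ∀ᵐ ω ∂μ, e (z + w) ω = e z ω + e w ω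
  mul : ∀ z w, ∀ᵐ ω ∂μ, e (z * w) ω = e z ω * e w ω
  one : ∀ᵐ ω ∂μ, e 1 ω = 1

/-- neighbourhoods of zero for convergence in measure -/
def Ev.W {K M Ω : Type} [Field K] [Field M] [TopologicalSpace M] [MeasurableSpace Ω]
    {μ : Measure Ω} (v : Ev K M Ω μ) (U : Set M) (ε : ℝ) : Set K :=
  {z | μ {ω | v.e z ω ∉ U} < ENNReal.ofReal ε}

theorem h0 (K M Ω : Type) [Field K] [Field M] [TopologicalSpace M] [MeasurableSpace Ω]
    (μ : Measure Ω) (v : Ev K M Ω μ) :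
    (∀ᵐ ω ∂μ, v.e 0 ω = 0) ∧ (∀ z, ∀ᵐ ω ∂μ, v.e (-z) ω = - v.e z ω) ∧
      (∀ z, z ≠ 0 → ∀ᵐ ω ∂μ, v.e z ω ≠ 0 ∧ v.e z⁻¹ ω = (v.e z ω)⁻¹) := by
  have h0 : ∀ᵐ ω ∂μ, v.e 0 ω = 0 := by
    filter_upwards [v.add 0 0] with ω h
    rw [add_zero] at h
    exact left_eq_add.mp h
  refine ⟨h0, ?_, ?_⟩
  · intro z
    filter_upwards [h0, v.add z (-z)] with ω h1 h2
    rw [add_neg_cancel, h1] at h2
    exact (neg_eq_of_add_eq_zero_right h2.symm).symm
  · intro z hz
    filter_upwards [v.mul z z⁻¹, v.one] with ω h1 h2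
    rw [mul_inv_cancel₀ hz, h2] at h1
    have hne : v.e z ω ≠ 0 := by
      intro h
      rw [h, zero_mul] at h1
      exact one_ne_zero h1
    exact ⟨hne, (inv_eq_of_mul_eq_one_right h1.symm).symm⟩

/-- tightness -/
def Tg (K M Ω : Type) [Field K] [Field M] [TopologicalSpace M] [MeasurableSpace Ω]
    (μ : Measure Ω) (v : Ev K M Ω μ) : Prop :=
  ∀ (z : K), ∀ V ∈ 𝓝 (0 : M), ∀ ε : ℝ, 0 < ε → ∃ U ∈ 𝓝 (0 : M),
    μ {ω | ¬ ∀ x ∈ U, v.e z ω * x ∈ V} < ENNReal.ofReal ε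

namespace TOPx

section

variable {K M Ω : Type} [Field K] [Field M] [TopologicalSpace M]
  [MeasurableSpace Ω] {μ : Measure Ω}

theorem W_mono (v : Ev K M Ω μ) {U V : Set M} {ε δ : ℝ} (hU : U ⊆ V) (hε : ε ≤ δ) :
    v.W U ε ⊆ v.W V δ := by
  intro z hz
  refine lt_of_le_of_lt (measure_mono ?_) (lt_of_lt_of_le hz (ENNReal.ofReal_le_ofReal hε))
  intro ω hω h
  exact hω (hU h)

theorem W_ae (v : Ev K M Ω μ) {z w : K} {U V : Set M} {ε : ℝ}
    (h : ∀ᵐ ω ∂μ, v.e z ω ∈ V → v.e w ω ∈ U) (hz : z ∈ v.W V ε) : w ∈ v.W U ε := by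
  refine lt_of_le_of_lt (measure_mono_ae ?_) hz
  filter_upwards [h] with ω hω h1 h2
  exact h1 (hω h2)

theorem W_ae2 (v : Ev K M Ω μ) {w : K} {U : Set M} {A B : Set Ω} {ε : ℝ} (hε : 0 < ε)
    (h : ∀ᵐ ω ∂μ, ω ∉ A → ω ∉ B → v.e w ω ∈ U) (hA : μ A < ENNReal.ofReal (ε / 2))
    (hB : μ B < ENNReal.ofReal (ε / 2)) : w ∈ v.W U ε := by
  have h1 : μ {ω | v.e w ω ∉ U} ≤ μ (A ∪ B) := by
    refine measure_mono_ae ?_
    filter_upwards [h] with ω hω h1
    by_contra h2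
    have h3 : ω ∉ A ∪ B := h2
    rw [Set.mem_union, not_or] at h3
    exact h1 (hω h3.1 h3.2)
  have h2 : ENNReal.ofReal (ε / 2) + ENNReal.ofReal (ε / 2) = ENNReal.ofReal ε := by
    rw [← ENNReal.ofReal_add (by linarith) (by linarith)]
    congr 1
    ring
  calc μ {ω | v.e w ω ∉ U} ≤ μ (A ∪ B) := h1
    _ ≤ μ A + μ B := measure_union_le _ _
    _ < ENNReal.ofReal (ε / 2) + ENNReal.ofReal (ε / 2) := ENNReal.add_lt_add hA hB
    _ = ENNReal.ofReal ε := h2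

end

/-- the filter basis -/
def basis (K M Ω : Type) [Field K] [Field M] [TopologicalSpace M]
    [IsTopologicalDivisionRing M] [T2Space M]
    [MeasurableSpace Ω] (μ : Measure Ω) [IsProbabilityMeasure μ] (v : Ev K M Ω μ)
    (hT : Tg K M Ω μ v) : RingFilterBasis K where
  sets := {S | ∃ U ∈ 𝓝 (0 : M), ∃ ε : ℝ, 0 < ε ∧ S = v.W U ε}
  nonempty := ⟨_, Set.univ, univ_mem, 1, one_pos, rfl⟩
  inter_sets := by
    rintro _ _ ⟨U, hU, ε, hε, rfl⟩ ⟨V, hV, δ, hδ, rfl⟩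
    refine ⟨_, ⟨U ∩ V, inter_mem hU hV, min ε δ, lt_min hε hδ, rfl⟩, ?_⟩
    exact Set.subset_inter (W_mono v Set.inter_subset_left (min_le_left _ _))
      (W_mono v Set.inter_subset_right (min_le_right _ _))
  zero' := by
    rintro _ ⟨U, hU, ε, hε, rfl⟩
    have h1 : μ {ω | v.e 0 ω ∉ U} = 0 := by
      have h2 := (h0 K M Ω μ v).1
      rw [← compl_mem_ae_iff]
      filter_upwards [h2] with ω hω h
      apply h
      rw [hω]
      exact mem_of_mem_nhds hU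
    change μ {ω | v.e 0 ω ∉ U} < ENNReal.ofReal ε
    rw [h1]
    exact ENNReal.ofReal_pos.mpr hε
  add' := by
    rintro _ ⟨U, hU, ε, hε, rfl⟩
    obtain ⟨V, hV, hVU⟩ := exists_nhds_zero_half hU
    refine ⟨_, ⟨V, hV, ε / 2, by linarith, rfl⟩, ?_⟩
    intro y hy
    rw [Set.mem_add] at hy
    obtain ⟨z, hz, w, hw, rfl⟩ := hy
    refine W_ae2 v hε ?_ hz hw
    filter_upwards [v.add z w] with ω hω h1 h2
    rw [hω]
    exact hVU _ (not_not.mp h1) _ (not_not.mp h2)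
  neg' := by
    rintro _ ⟨U, hU, ε, hε, rfl⟩
    have hU' : (fun x : M => -x) ⁻¹' U ∈ 𝓝 (0 : M) := by
      apply continuous_neg.continuousAt.preimage_mem_nhds
      rw [neg_zero]
      exact hU
    refine ⟨_, ⟨_, hU', ε, hε, rfl⟩, ?_⟩
    intro z hz
    refine W_ae v ?_ hz
    filter_upwards [(h0 K M Ω μ v).2.1 z] with ω hω h1
    rw [hω]
    exact h1
  conj' := by
    intro x0 U hU
    refine ⟨U, hU, ?_⟩
    intro x hx
    simpa using hx
  mul' := by
    rintro _ ⟨U, hU, ε, hε, rfl⟩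
    have hm : (fun p : M × M => p.1 * p.2) ⁻¹' U ∈ 𝓝 ((0 : M), (0 : M)) := by
      apply continuous_mul.continuousAt.preimage_mem_nhds
      rw [mul_zero]
      exact hU
    rw [nhds_prod_eq, mem_prod_self_iff] at hm
    obtain ⟨V, hV, hVU⟩ := hm
    refine ⟨_, ⟨V, hV, ε / 2, by linarith, rfl⟩, ?_⟩
    intro y hy
    rw [Set.mem_mul] at hy
    obtain ⟨z, hz, w, hw, rfl⟩ := hy
    refine W_ae2 v hε ?_ hz hw
    filter_upwards [v.mul z w] with ω hω h1 h2
    rw [hω]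
    exact hVU (Set.mk_mem_prod (not_not.mp h1) (not_not.mp h2))
  mul_left' := by
    rintro x0 _ ⟨U, hU, ε, hε, rfl⟩
    obtain ⟨V, hV, hVU⟩ := hT x0 U hU (ε / 2) (by linarith)
    refine ⟨_, ⟨V, hV, ε / 2, by linarith, rfl⟩, ?_⟩
    intro z hz
    refine W_ae2 v hε ?_ hVU hz
    filter_upwards [v.mul x0 z] with ω hω h1 h2
    change v.e (x0 * z) ω ∈ U
    rw [hω]
    exact not_not.mp h1 _ (not_not.mp h2)
  mul_right' := by
    rintro x0 _ ⟨U, hU, ε, hε, rfl⟩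
    obtain ⟨V, hV, hVU⟩ := hT x0 U hU (ε / 2) (by linarith)
    refine ⟨_, ⟨V, hV, ε / 2, by linarith, rfl⟩, ?_⟩
    intro z hz
    refine W_ae2 v hε ?_ hVU hz
    filter_upwards [v.mul z x0] with ω hω h1 h2
    change v.e (z * x0) ω ∈ U
    rw [hω, mul_comm]
    exact not_not.mp h1 _ (not_not.mp h2)

end TOPx

open TOPx in
theorem t_TOP (K M Ω : Type) [Field K] [Field M] [TopologicalSpace M]
    [IsTopologicalDivisionRing M] [T2Space M]
    [MeasurableSpace Ω] (μ : Measure Ω) [IsProbabilityMeasure μ] (v : Ev K M Ω μ)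
    (hT : Tg K M Ω μ v) :
    ∃ τ : TopologicalSpace K, @IsTopologicalDivisionRing K _ τ ∧
      ∀ S : Set K, S ∈ @nhds K τ 0 ↔ ∃ U ∈ 𝓝 (0 : M), ∃ ε : ℝ, 0 < ε ∧ v.W U ε ⊆ S := by
  set B : RingFilterBasis K := basis K M Ω μ v hT with hB
  letI τ : TopologicalSpace K := B.topology
  haveI hring : IsTopologicalRing K := B.isTopologicalRing
  have hnhds : ∀ S : Set K, S ∈ 𝓝 (0 : K) ↔ ∃ U ∈ 𝓝 (0 : M), ∃ ε : ℝ, 0 < ε ∧ v.W U ε ⊆ S := by
    intro S
    rw [AddGroupFilterBasis.nhds_zero_eq, FilterBasis.mem_filter_iff]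
    constructor
    · rintro ⟨_, ⟨U, hU, ε, hε, rfl⟩, hS⟩
      exact ⟨U, hU, ε, hε, hS⟩
    · rintro ⟨U, hU, ε, hε, hS⟩
      exact ⟨_, ⟨U, hU, ε, hε, rfl⟩, hS⟩
  -- inversion at one
  have hinv1 : Tendsto (fun x : K => x⁻¹) (𝓝 1) (𝓝 1) := by
    have key : Tendsto (fun x : K => (1 + x)⁻¹ - 1) (𝓝 0) (𝓝 0) := by
      intro S hS
      rw [hnhds] at hS
      obtain ⟨U, hU, ε, hε, hS⟩ := hS
      rw [mem_map, hnhds]
      have hc : Tendsto (fun x : M => (1 + x)⁻¹ - 1) (𝓝 0) (𝓝 0) := by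
        have h1 : ContinuousAt (fun x : M => (1 + x)⁻¹ - 1) 0 := by
          apply ContinuousAt.sub _ continuousAt_const
          apply ContinuousAt.inv₀
          · exact (continuous_const.add continuous_id).continuousAt
          · simp
        have h2 := h1.tendsto
        simpa using h2
      have hne : ({-1}ᶜ : Set M) ∈ 𝓝 (0 : M) := by
        apply IsOpen.mem_nhds isOpen_compl_singleton
        rw [Set.mem_compl_iff, Set.mem_singleton_iff]
        intro h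
        have : (1 : M) = 0 := by
          rw [← neg_neg (1 : M), ← h, neg_zero]
        exact one_ne_zero this
      refine ⟨_, inter_mem (hc hU) hne, min ε 1, lt_min hε one_pos, ?_⟩
      intro x hx
      apply hS
      have hx1 : 1 + x ≠ 0 := by
        intro h
        have hxe : x = -1 := by
          rw [eq_neg_iff_add_eq_zero, add_comm]
          exact h
        have h1 : x ∈ v.W ({-1}ᶜ : Set M) 1 := W_mono v Set.inter_subset_right (min_le_right _ _) hx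
        have h2 : μ {ω | v.e x ω ∉ ({-1}ᶜ : Set M)} = 1 := by
          rw [← measure_univ (μ := μ)]
          apply measure_congr
          rw [eventuallyEq_univ]
          filter_upwards [(h0 K M Ω μ v).2.1 1, v.one] with ω h3 h4
          intro h5
          rw [hxe, h3, h4] at h5
          exact h5 rfl
        have h3 : μ {ω | v.e x ω ∉ ({-1}ᶜ : Set M)} < ENNReal.ofReal 1 := h1
        rw [h2, ENNReal.ofReal_one] at h3
        exact lt_irrefl _ h3
      have hxW : x ∈ v.W ((fun x : M => (1 + x)⁻¹ - 1) ⁻¹' U) ε :=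
        W_mono v Set.inter_subset_left (min_le_left _ _) hx
      refine W_ae v ?_ hxW
      filter_upwards [(h0 K M Ω μ v).2.1 1, v.one, v.add 1 x, ((h0 K M Ω μ v).2.2 _ hx1),
        v.add (1 + x)⁻¹ (-1)] with ω h1 h2 h3 h4 h5 h6
      rw [sub_eq_add_neg, h5, h4.2, h3, h1, h2, ← sub_eq_add_neg]
      exact h6
    have h1 : Tendsto (fun x : K => (1 + (x - 1))⁻¹ - 1 + 1) (𝓝 1) (𝓝 (0 + 1)) := by
      have h2 : Tendsto (fun x : K => x - 1) (𝓝 1) (𝓝 0) := by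
        have : Tendsto (fun x : K => x - 1) (𝓝 1) (𝓝 (1 - 1)) :=
          (continuous_id.sub continuous_const).tendsto 1
        rwa [sub_self] at this
      exact (key.comp h2).add tendsto_const_nhds
    simpa using h1
  refine ⟨τ, ?_, hnhds⟩
  refine { toIsTopologicalRing := hring, continuousAt_inv₀ := ?_ }
  intro x hx
  have h1 : Tendsto (fun y : K => x⁻¹ * y) (𝓝 x) (𝓝 1) := by
    have : Tendsto (fun y : K => x⁻¹ * y) (𝓝 x) (𝓝 (x⁻¹ * x)) :=
      (continuous_const.mul continuous_id).tendsto x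
    rwa [inv_mul_cancel₀ hx] at this
  have h2 : Tendsto (fun y : K => (x⁻¹ * y)⁻¹ * x⁻¹) (𝓝 x) (𝓝 (1 * x⁻¹)) :=
    (hinv1.comp h1).mul tendsto_const_nhds
  have h3 : (fun y : K => (x⁻¹ * y)⁻¹ * x⁻¹) = fun y => y⁻¹ := by
    funext y
    rw [mul_inv, inv_inv, mul_comm x, mul_assoc, mul_inv_cancel₀ hx, mul_one]
  rw [h3, one_mul] at h2
  exact h2

end Pool.Agent.Helper9KC
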